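import Pool.Agent.Lib.MP_5c318e_ag.Bk.SatW

/-! Holomorphic functions of finite weighted norm on the total space are combinations of the
pluricanonical forms with holomorphic coefficients; the weight of a Fubini-Study volume. -/

set_option autoImplicit false
set_option linter.unusedSectionVars false

namespace Pool.Agent.Lib.MP_5c318e_ag

open MeasureTheory Set Filter Topology

variable {δ ν K M : Type} [Fintype δ] [DecidableEq δ] [Fintype ν] [DecidableEq ν]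
  [Field K] [Algebra ℂ K] [Field M] [Algebra ℂ M] [Algebra K M] [IsScalarTower ℂ K M]
  {B : Cht δ K}

theorem Rel.hol_fib (T : Rel B ν M) {F : Pt T.X.O → ℂ} (hF : T.X.D.Hol F) (b : Pt B.O) :
    (T.fib b).Hol fun p => F p.1 := fun p => by
  simpa [Rel.Pow.f] using T.slice (T.pow_hol_p (κ := Unit) hF ()) b (fun _ => p) () p

/-- coefficients that exist on almost every fibre are holomorphic -/
theorem Rel.coef_one (T : Rel B ν M) {r : Type} [Fintype r] {τ : r → T.X.O}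
    (hi : ∀ (b : Pt B.O) (a : r → ℂ), (∀ p : T.Fib b, ∑ i, a i * p.1 (τ i) = 0) → a = 0)
    {F : Pt T.X.O → ℂ} (hF : T.X.D.Hol F)
    (h : ∀ᵐ b ∂B.D.μ, ∃ a : r → ℂ, ∀ p : T.Fib b, F p.1 = ∑ i, a i * p.1 (τ i)) :
    ∃ c : r → Pt B.O → ℂ, (∀ i, B.D.Hol (c i)) ∧ ∀ p, F p = ∑ i, c i (p.res T.inc) * p (τ i) := by
  classical
  obtain ⟨a, h1, h2⟩ := T.coef_hol (T.pow_hol_p (κ := Unit) hF ()) hi (h.mono fun b ⟨a, ha⟩ =>
    ⟨fun I => a (I ()), fun x => by
      rw [Rel.Pow.mk_p, ha, ← (Equiv.funUnique Unit r).sum_comp]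
      simp⟩)
  refine ⟨fun i b => a b (uniqueElim i), fun i => h1 _, fun p => ?_⟩
  have := h2 (p.res T.inc) fun _ => ⟨p, rfl⟩
  rw [Rel.Pow.mk_p, ← (Equiv.funUnique Unit r).symm.sum_comp] at this
  simpa using this

/-- saturation on the total space -/
theorem Fam.coefW (T : Fam B ν M) {m : ℕ} (hm : 0 < m) {r : Type} [Fintype r] {τ : r → T.X.O}
    (hτ : ∀ φ, Plu T.dx m φ → φ ∈ Submodule.span K (Set.range fun i => (τ i : M)))
    (hi : ∀ (b : Pt B.O) (a : r → ℂ), (∀ p : T.Fib b, ∑ i, a i * p.1 (τ i) = 0) → a = 0)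
    {w : Pt T.X.O → ENNReal} (hw : T.GoodW m w) (wm : Measurable w) {ρ : Pt B.O → ENNReal}
    (ρm : Measurable ρ) (ρ0 : ∀ᵐ b ∂B.D.μ, ρ b ≠ 0) {F : Pt T.X.O → ℂ} (hF : T.X.D.Hol F)
    (h : ∫⁻ p, ENNReal.ofReal (‖F p‖ ^ 2) * w p * ρ (p.res T.inc) ∂T.X.D.μ < ⊤) :
    ∃ c : r → Pt B.O → ℂ, (∀ i, B.D.Hol (c i)) ∧ ∀ p, F p = ∑ i, c i (p.res T.inc) * p (τ i) := by
  have m1 : Measurable fun p => ENNReal.ofReal (‖F p‖ ^ 2) * w p :=
    (hF.cont.norm.pow 2).measurable.ennreal_ofReal.mul wm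
  obtain ⟨f1, f2⟩ := T.fubini (m1.mul (ρm.comp (Pt.continuous_res T.inc).measurable))
  refine T.coef_one hi hF ?_
  filter_upwards [T.satW hm hτ hw, ρ0, ae_lt_top f1 (f2 ▸ h).ne] with b h1 h2 h3
  obtain ⟨a, ha⟩ := h1 1 (fun p => F p.1) one_ne_zero (fun p _ => T.hol_fib hF b p) (by
    have e : ∀ p : T.Fib b, ρ (p.1.res T.inc) = ρ b := fun p => congrArg ρ p.2
    simp only [Pi.mul_apply, Function.comp_apply, e] at h3
    exact ENNReal.lt_top_of_mul_ne_top_left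
      (lintegral_mul_const (ρ b) (m1.comp measurable_subtype_coe) ▸ h3.ne) h2)
  exact ⟨a, fun p => ha p (by simp)⟩

/-- the same with real weights -/
theorem Fam.coefR (T : Fam B ν M) {m : ℕ} (hm : 0 < m) {r : Type} [Fintype r] {τ : r → T.X.O}
    (hτ : ∀ φ, Plu T.dx m φ → φ ∈ Submodule.span K (Set.range fun i => (τ i : M)))
    (hi : ∀ (b : Pt B.O) (a : r → ℂ), (∀ p : T.Fib b, ∑ i, a i * p.1 (τ i) = 0) → a = 0)
    {ψ : Pt T.X.O → ℝ} (hψ : Continuous ψ)
    (hw : T.GoodW m fun p => ENNReal.ofReal (Real.exp (-ψ p))) (F : Pt T.X.O → ℂ)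
    (w : Pt B.O → ℝ) (hF : T.X.D.Hol F) (wc : Continuous w) (w0 : ∀ b, 0 < w b)
    (h : Integrable (fun p => ‖F p‖ ^ 2 * Real.exp (-ψ p) * w (p.res T.inc)) T.X.D.μ) :
    ∃ c : r → Pt B.O → ℂ, (∀ i, B.D.Hol (c i)) ∧ ∀ p, F p = ∑ i, c i (p.res T.inc) * p (τ i) := by
  refine T.coefW hm hτ hi hw hψ.neg.rexp.measurable.ennreal_ofReal
    (ρ := fun b => ENNReal.ofReal (w b)) wc.measurable.ennreal_ofReal
    (.of_forall fun b => by simpa using w0 b) hF (lt_of_eq_of_lt (lintegral_congr fun p => ?_)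
      ((hasFiniteIntegral_iff_ofReal (.of_forall fun p => ?_)).1 h.2))
  · rw [ENNReal.ofReal_mul (by positivity), ENNReal.ofReal_mul (by positivity)]
  · exact mul_nonneg (by positivity) (w0 _).le

theorem Rel.LowW.mono {T : Rel B ν M} {m : ℕ} (hm : 0 < m) {w : Pt T.X.O → ENNReal}
    {u : Pt T.X.O → ℝ} (h : ∃ C : ENNReal, C ≠ ⊤ ∧ ∀ᶠ p in T.X.D.gen,
      ENNReal.ofReal (u p) ^ (-((m - 1) / m) : ℝ) ≤ C * w p) {κ : Type} [Fintype κ] {σ : κ → M}
    (hu : ∀ᶠ p in T.X.D.gen, u p ≤ ∑ j, ‖Pt.ev p (σ j)‖ ^ 2) : T.LowW m w σ := by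
  obtain ⟨C, hC, h⟩ := h
  have m1 : (1 : ℝ) ≤ m := by exact_mod_cast hm
  refine ⟨C, hC, (h.and hu).mono fun p hp => le_trans ?_ hp.1⟩
  rw [ENNReal.rpow_neg, ENNReal.rpow_neg]
  exact ENNReal.inv_le_inv.2 (ENNReal.rpow_le_rpow (ENNReal.ofReal_le_ofReal hp.2)
    (div_nonneg (by linarith) (by linarith)))

/-- inverting some of the functions -/
theorem jac_flip {k F ι : Type} [Field k] [Field F] [Algebra k F] [Fintype ι] [DecidableEq ι]
    (d : ι → Derivation k F F) (f : ι → F) (P : ι → Prop) [DecidablePred P] :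
    Jac d f = (∏ l, if P l then 1 else -f l ^ 2) * Jac d fun l => if P l then f l else (f l)⁻¹ := by
  rw [Jac, Jac, ← Matrix.det_mul_column]
  congr 1
  ext a b
  by_cases h : P a
  · simp [h]
  · rcases eq_or_ne (f a) 0 with h0 | h0
    · simp [h, h0]
    · simp only [Matrix.of_apply, h, if_false, Derivation.leibniz_inv, smul_eq_mul]
      field_simp

/-- the weight `(B + V) ^ (-(m-1)/m)`, `V` a sum of powers of product Fubini-Study volumes -/
theorem Rel.goodW_fs (T : Rel B ν M) {m : ℕ} (hm : 0 < m) {r I : Type} [Fintype r] [Fintype I]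
    {τ : r → T.X.O} (hτ : ∀ i, Plu T.dx m (τ i : M)) {f : I → ν → M} (hf : ∀ i l, f i l ∈ T.X.O)
    {w : Pt T.X.O → ENNReal} (h : ∃ C : ENNReal, C ≠ ⊤ ∧ ∀ᶠ p : Pt T.X.O in T.X.D.gen,
      ENNReal.ofReal (∑ i, ‖p (τ i)‖ ^ 2 + ∑ i, (‖Pt.ev p (Jac T.dx (f i))‖ ^ 2 /
        ∏ l, (1 + ‖Pt.ev p (f i l)‖ ^ 2) ^ 2) ^ m) ^ (-((m - 1) / m) : ℝ) ≤ C * w p) :
    T.GoodW m w := by
  classical
  have key : ∀ P : I → ν → Prop, T.LowW m w (Sum.elim (fun i => (τ i : M))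
      fun i => Jac T.dx (fun l => if P i l then f i l else (f i l)⁻¹) ^ m) := fun P => by
    refine Rel.LowW.mono hm h ?_
    filter_upwards [eventually_all.2 fun i =>
      T.X.gen_reg (Jac T.dx fun l => if P i l then f i l else (f i l)⁻¹)] with p hp
    simp only [Fintype.sum_sum_type, Sum.elim_inl, Sum.elim_inr, Pt.ev_coe]
    refine add_le_add le_rfl (Finset.sum_le_sum fun i _ => ?_)
    have r1 : ∀ l, p.Reg (if P i l then 1 else -f i l ^ 2) := fun l => p.reg_of_mem (by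
      split_ifs
      exacts [one_mem _, neg_mem (pow_mem (hf i l) 2)])
    have r2 := p.ev_prod Finset.univ fun l _ => r1 l
    rw [(p.ev_pow (hp i) m).2, norm_pow, ← pow_mul, mul_comm m, pow_mul]
    refine pow_le_pow_left₀ (by positivity) ?_ m
    rw [div_le_iff₀ (by positivity), jac_flip T.dx (f i) (P i), (p.ev_mul r2.1 (hp i)).2, r2.2,
      norm_mul, mul_pow, mul_comm, norm_prod, ← Finset.prod_pow]
    refine mul_le_mul_of_nonneg_left (Finset.prod_le_prod (fun _ _ => by positivity) fun l _ =>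
      pow_le_pow_left₀ (norm_nonneg _) ?_ 2) (by positivity)
    split_ifs
    · simp
    · have : p.ev (-f i l ^ 2) = -p.ev (f i l) ^ 2 := by
        rw [p.ev_of_mem (hf i l), ← map_pow, ← map_neg, ← Pt.ev_coe]
        rfl
      rw [this, norm_neg, norm_pow]
      linarith
  refine ⟨?_, fun O hO => ⟨_, _, _, ?_, key fun i l => f i l ∈ O⟩⟩
  · have hJ : ∀ i, Jac T.dx (f i) ^ m ∈ T.X.O := fun i => pow_mem (by
      rw [Jac, Matrix.det_apply']
      exact sum_mem fun s _ => mul_mem (intCast_mem _ _) (prod_mem fun l _ => by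
        rw [Matrix.of_apply, T.dx_eq]
        exact T.X.der_mem _ _ (hf i _))) m
    refine ⟨r ⊕ I, inferInstance, Sum.elim τ fun i => ⟨_, hJ i⟩, ?_⟩
    convert key fun _ _ => True with j
    rcases j with j | j <;> simp
  · rintro (i | i)
    · exact hτ i O hO
    · refine ⟨_, fun l => ?_, 1, one_mem _, (one_mul _).symm⟩
      split_ifs with h
      exacts [h, (O.mem_or_inv_mem _).resolve_left h]

end Pool.Agent.Lib.MP_5c318e_ag
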