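import Pool.Agent.Lib.MP_5c318e_ag.S.Sat
import Pool.Agent.Lib.MP_5c318e_ag.S.CV2
import Pool.Agent.Lib.MP_5c318e_ag.Fp.Coef

/-! Saturation for a weight that is bounded below along every prime divisor. -/

set_option autoImplicit false
set_option linter.unusedSectionVars false

namespace Pool.Agent.Lib.MP_5c318e_ag

open MeasureTheory Set Filter Topology

variable {δ ν K M : Type} [Fintype δ] [DecidableEq δ] [Fintype ν] [DecidableEq ν]
  [Field K] [Algebra ℂ K] [Field M] [Algebra ℂ M] [Algebra K M] [IsScalarTower ℂ K M]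
  {B : Cht δ K}

/-- `w` is bounded below by the weight of the family `σ` of forms -/
def Rel.LowW (T : Rel B ν M) (m : ℕ) (w : Pt T.X.O → ENNReal) {κ : Type} [Fintype κ]
    (σ : κ → M) : Prop :=
  ∃ C : ENNReal, C ≠ ⊤ ∧ ∀ᶠ p in T.X.D.gen,
    ENNReal.ofReal (∑ j, ‖Pt.ev p (σ j)‖ ^ 2) ^ (-((m - 1) / m) : ℝ) ≤ C * w p

/-- weights that are bounded below on the chart and along every prime divisor -/
structure Rel.GoodW (T : Rel B ν M) (m : ℕ) (w : Pt T.X.O → ENNReal) : Prop where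
  own : ∃ (κ : Type) (_ : Fintype κ) (σ : κ → T.X.O), T.LowW m w fun j => (σ j : M)
  loc : ∀ O : ValuationSubring M, IsDivisorial K M O →
    ∃ (κ : Type) (_ : Fintype κ) (σ : κ → M), (∀ j, RegI T.dx m (σ j) O) ∧ T.LowW m w σ

theorem Rel.ae_ae_of_gen (T : Rel B ν M) {P : Pt T.X.O → Prop} (h : ∀ᶠ p in T.X.D.gen, P p) :
    ∀ᵐ b ∂B.D.μ, ∀ᵐ p ∂(T.fib b).μ, P p.1 := by
  obtain ⟨e, e0, he⟩ := T.X.gen_iff.1 h
  filter_upwards [B.D.ae_of_gen (T.gen_ne e0)] with b hb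
  exact ((T.fib b).ae_of_gen hb).mono fun p hp => he _ hp

theorem Rel.LowW.lt_top {T : Rel B ν M} {m : ℕ} {w : Pt T.X.O → ENNReal} {κ : Type} [Fintype κ]
    {σ : κ → M} (h : T.LowW m w σ) : ∀ᵐ b ∂B.D.μ, ∀ u : T.Fib b → ℂ,
      ∫⁻ p, ENNReal.ofReal (‖u p‖ ^ 2) * w p.1 ∂(T.fib b).μ < ⊤ →
      ∫⁻ p, Sat.G m (u p) (fun j => p.1.ev (σ j)) ∂(T.fib b).μ < ⊤ := by
  obtain ⟨C, hC, h⟩ := h
  filter_upwards [T.ae_ae_of_gen h] with b hb u hu
  refine lt_of_le_of_lt (lintegral_mono_ae (hb.mono fun p hp => ?_))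
    ((lintegral_const_mul' C _ hC).trans_lt (ENNReal.mul_lt_top hC.lt_top hu))
  rw [Sat.G, mul_left_comm]
  exact mul_le_mul_right hp _

theorem Rel.sat_locW (T T' : Rel B ν M) {m : ℕ} (hm : 0 < m) {r n : Type} [Fintype r] [Fintype n]
    (τ : r → M) (φ : n → T.X.O) (i0 : ν) (N : ℕ) (σ : r → T'.X.O) (ψ : n → T'.X.O)
    (hσ : ∀ j, τ j * Jac T'.dx T.x ^ m = σ j)
    (hψ : ∀ i, (φ i : M) * Jac T'.dx T.x ^ m * T'.x i0 ^ N = ψ i) :
    ∀ᵐ b ∂B.D.μ, ∀ a : n → ℂ,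
      ∫⁻ p, Sat.G m (∑ i, a i * p.1 (φ i)) (fun j => p.1.ev (τ j)) ∂(T.fib b).μ < ⊤ →
      ∃ a' : n → B.O, (∑ i, algebraMap K M (a' i) * φ i) * Jac T'.dx T.x ^ m ∈ T'.X.O ∧
        ∀ i, a i = b (a' i) := by
  have : CharZero K := charZero_of_injective_algebraMap (algebraMap ℂ K).injective
  obtain ⟨α, β, hβ, e⟩ := T'.X.frac (Jac T'.dx T.x)
  have hα : α ≠ 0 := by
    rintro rfl
    have h1 := T.dual.jac_chain T'.dx T'.x
    rw [T'.dual.jac_one, (mul_eq_zero.1 e).resolve_right fun h => hβ (Subtype.ext h), zero_mul] at h1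
    exact one_ne_zero h1
  obtain ⟨S, s1, s2, s3⟩ := Sat.spread_div T'.inc (FibRed.radical_fibre _ _ T'.etale) ψ
    (T'.X.z (Sum.inr i0) ^ N)
  filter_upwards [B.D.ae_of_gen (T'.cv T), B.D.ae_of_gen (T'.gen_ne hα),
    B.D.ae_of_gen (T'.gen_ne hβ), (ae_ball_iff s1).2 fun d hd => FibRed.ae_ne B (s2 d hd)]
    with b hcv h1 h2 hb a hi
  have h3 := hcv (fun e => Sat.G m (∑ i, a i * e (φ i)) fun j => e (τ j)) (by
    unfold Sat.G; fun_prop)
  simp only [Pt.ev_coe] at h3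
  obtain ⟨h, hh⟩ := T'.sat_pole b i0 (h3 ▸ hi) (w := fun p => (1 + ∑ j, ‖p.1 (σ j)‖ ^ 2)⁻¹)
    ((continuous_const.add (continuous_finsetSum _ fun j _ =>
      (((Pt.continuous_apply _).comp continuous_subtype_val).norm.pow 2))).inv₀
        fun p => ne_of_gt (add_pos_of_pos_of_nonneg one_pos (Finset.sum_nonneg fun _ _ => sq_nonneg _)))
    (fun p => by positivity) N (∑ i, a i • ψ i) (by
    filter_upwards [(T'.fib b).ae_of_gen h1, (T'.fib b).ae_of_gen h2,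
      (T'.fib b).null_poly (MvPolynomial.X_ne_zero i0)] with q q1 q2 q3
    rw [MvPolynomial.eval_X, T'.fib_π] at q3
    have key : ∀ (x : M) (y z : T'.X.O), q.1 z ≠ 0 → x * Jac T'.dx T.x ^ m * z = y →
        q.1.ev x = q.1 y / q.1 z / (q.1 α / q.1 β) ^ m := fun x y z hz hx => by
      rw [q.1.ev_eq (a := y * β ^ m) (b := α ^ m * z) (by simp [q1, hz])
        (by push_cast; rw [← e, ← hx]; ring)]
      simp only [map_mul, map_pow, div_pow]
      field_simp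
    have k1 : ∀ j, q.1.ev (τ j) = q.1 (σ j) / (q.1 α / q.1 β) ^ m := fun j => by
      simpa using key _ _ 1 (by simp) (by simpa using hσ j)
    have k2 : ∑ i, a i * q.1.ev (φ i) = q.1 (∑ i, a i • ψ i) / q.1 (T'.X.z (Sum.inr i0)) ^ N /
        (q.1 α / q.1 β) ^ m := by
      simp only [map_sum, map_smul, smul_eq_mul, Finset.sum_div, mul_div_assoc]
      refine Finset.sum_congr rfl fun i _ => ?_
      rw [key _ _ (T'.X.z (Sum.inr i0) ^ N) (by simp [q3]) (hψ i), map_pow]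
    simp only [k1, k2, q.1.ev_eq q2 e]
    refine le_trans (le_of_eq ?_) (Sat.le_G hm _ _ (div_ne_zero q1 q2))
    rw [norm_div, norm_pow, div_pow, ← pow_mul, ← pow_mul, mul_comm 2, mul_div_assoc])
  obtain ⟨a', h', e1, e2⟩ := s3 b hb (fun i => algebraMap ℂ _ (a i)) h fun p hp => by
    simpa [sub_eq_zero] using hh ⟨p, hp⟩
  refine ⟨a', ?_, fun i => by simpa using e2 i⟩
  have e3 := congrArg (fun x : T'.X.O => (x : M)) e1
  simp only [MulMemClass.coe_mul, SubmonoidClass.coe_pow, AddSubmonoidClass.coe_finsetSum,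
    T'.inc_eq, ← hψ, ← mul_assoc, ← Finset.sum_mul] at e3
  rw [← mul_right_cancel₀ (pow_ne_zero N (T'.basis.1.ne_zero i0)) e3]
  exact h'.2

theorem Rel.sat_atW (T : Rel B ν M) {m : ℕ} (hm : 0 < m) {r n : Type} [Fintype r] [Fintype n]
    (τ : r → M) (φ : n → T.X.O) {O : ValuationSubring M} (hO : IsDivisorial K M O)
    (hτ : ∀ j, RegI T.dx m (τ j) O) :
    ∀ᵐ b ∂B.D.μ, ∀ a : n → ℂ,
      ∫⁻ p, Sat.G m (∑ i, a i * p.1 (φ i)) (fun j => p.1.ev (τ j)) ∂(T.fib b).μ < ⊤ →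
      ∃ a' : n → B.O, RegI T.dx m (∑ i, algebraMap K M (a' i) * φ i) O ∧ ∀ i, a i = b (a' i) := by
  classical
  have : CharZero K := charZero_of_injective_algebraMap (algebraMap ℂ K).injective
  obtain ⟨c, i0, hc⟩ := hO.exists_adp (ι := ν) (trdeg_of_basis T.basis)
  have reg : ∀ x, RegI T.dx m x O ↔ x * (Jac T.dx c)⁻¹ ^ m ∈ O := fun x => by
    rw [hc.regI_iff, ← div_pow_mem_iff (T.dual.isFr.jac_ne hc.basis.1), div_eq_mul_inv, inv_pow]
  obtain ⟨N, hN⟩ := hc.exists_pow fun i => (φ i : M) * (Jac T.dx c)⁻¹ ^ m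
  obtain ⟨k, g, hg⟩ := Pt.exists_gens B.O
  let f : Fin k ⊕ r ⊕ n → M := Sum.elim (fun i => algebraMap K M (g i)) (Sum.elim
    (fun j => τ j * (Jac T.dx c)⁻¹ ^ m) fun i => φ i * (Jac T.dx c)⁻¹ ^ m * c i0 ^ N)
  have hc' := hc.horiz B.basis
  obtain ⟨C, hC, hz, hs⟩ := exists_cht_at0 T.X.fg hc'.divisorial hc'.adapted hc'.basis
    (Finset.univ.image f) (Finset.forall_mem_image.2 (by
      rintro (i | j | i) -
      exacts [hO.const _, (reg _).1 (hτ j), hN i]))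
  have hf : ∀ i, f i ∈ C.O := fun i => hs _ (Finset.mem_image_of_mem f (Finset.mem_univ i))
  obtain ⟨T', rfl⟩ := Rel.of_cht B C (fun a ha => (Algebra.adjoin_le (S := C.O.comap
    ((IsScalarTower.toAlgHom ℂ K M).comp B.O.val)) (range_subset_iff.2 fun i => hf (.inl i)))
    (hg ▸ Algebra.mem_top (x := (⟨a, ha⟩ : B.O)))) fun i => hz (.inl i)
  have hx : T'.x = c := funext fun i => hz (.inr i)
  have hJ : Jac T'.dx T.x = (Jac T.dx c)⁻¹ := eq_inv_of_mul_eq_one_left (by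
    rw [← T.dual.jac_chain, ← hx, T'.dual.jac_one])
  filter_upwards [T.sat_locW T' hm τ φ i0 N (fun j => ⟨_, hf (.inr (.inl j))⟩)
    (fun i => ⟨_, hf (.inr (.inr i))⟩) (fun j => by rw [hJ]; rfl) fun i => by rw [hJ, hx]; rfl]
    with b hb a ha
  obtain ⟨a', h1, h2⟩ := hb a ha
  exact ⟨a', (reg _).2 (hC.le _ (hJ ▸ h1)), h2⟩

theorem Rel.sat_finW (T : Rel B ν M) {m : ℕ} (hm : 0 < m) {r n : Type} [Fintype r] [Fintype n]
    {τ : r → T.X.O}
    (hτ : ∀ φ, Plu T.dx m φ → φ ∈ Submodule.span K (Set.range fun i => (τ i : M)))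
    {w : Pt T.X.O → ENNReal} (hw : T.GoodW m w) (φ : n → T.X.O) : ∀ᵐ b ∂B.D.μ, ∀ a : n → ℂ,
      ∫⁻ p, ENNReal.ofReal (‖∑ i, a i * p.1 (φ i)‖ ^ 2) * w p.1 ∂(T.fib b).μ < ⊤ →
      ∃ c : r → ℂ, ∀ p : T.Fib b, ∑ i, a i * p.1 (φ i) = ∑ j, c j * p.1 (τ j) := by
  classical
  have : CharZero K := charZero_of_injective_algebraMap (algebraMap ℂ K).injective
  obtain ⟨J, hJ, hfin⟩ := Sat.fin_val T.dx m fun i => (φ i : M)
  let L := Fintype.linearCombination B.O fun i => (φ i : M)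
  let L' := Fintype.linearCombination B.O fun i => (τ i : M)
  have sm : ∀ (a : B.O) (x : M), a • x = algebraMap K M a * x := fun a x => Algebra.smul_def (a : K) x
  have hL : ∀ a, L a = ∑ i, algebraMap K M (a i) * φ i := fun a => by
    simp only [L, Fintype.linearCombination_apply, sm]
  have hL' : ∀ a, L' a = ∑ i, algebraMap K M (a i) * τ i := fun a => by
    simp only [L', Fintype.linearCombination_apply, sm]
  let R : J → Submodule B.O M := fun O =>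
    { carrier := {x | RegI T.dx m x O}
      add_mem' := RegI.add
      zero_mem' := RegI.zero m _
      smul_mem' := fun a x hx => by
        rw [sm]
        exact hx.mem_mul ((hJ _ O.2).const _) }
  obtain ⟨S, s1, s2, s3⟩ := Sat.spread_inf fun O => (R O).comap L
  obtain ⟨d, hd, hden⟩ := Sat.exists_den ((LinearMap.range L').comap L)
  have hat : ∀ O : J, ∀ᵐ b ∂B.D.μ, ∀ a : n → ℂ,
      ∫⁻ p, ENNReal.ofReal (‖∑ i, a i * p.1 (φ i)‖ ^ 2) * w p.1 ∂(T.fib b).μ < ⊤ →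
      ∃ a' : n → B.O, RegI T.dx m (∑ i, algebraMap K M (a' i) * φ i) O ∧ ∀ i, a i = b (a' i) := by
    intro O
    obtain ⟨κ, _, σ, h1, h2⟩ := hw.loc _ (hJ _ O.2)
    filter_upwards [T.sat_atW hm σ φ (hJ _ O.2) h1, h2.lt_top] with b h3 h4 a ha
    exact h3 a (h4 _ ha)
  filter_upwards [(ae_ball_iff s1).2 fun d hd => FibRed.ae_ne B (s2 d hd), FibRed.ae_ne B hd,
    ae_all_iff.2 hat] with b h1 h2 h3 a ha
  obtain ⟨v, v1, v2⟩ := s3 _ (Sat.ker_max b) h1 (fun i => algebraMap ℂ _ (a i)) fun O => by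
    obtain ⟨a', e1, e2⟩ := h3 O a ha
    exact ⟨a', by rwa [← hL] at e1, (Sat.mem_smul b _).2 fun i => by simp [e2 i]⟩
  have v3 : ∀ i, a i = b (v i) := fun i => by simpa [sub_eq_zero] using (Sat.mem_smul b _).1 v2 i
  obtain ⟨c, hc⟩ := (Submodule.mem_span_range_iff_exists_fun K).1 (hτ _
    (hfin (fun i => v i) fun O hO => by rw [← hL]; exact v1 ⟨O, hO⟩))
  obtain ⟨e, he, hce⟩ := exists_den B.frac (Finset.univ.image c)
  choose c' hc' using fun j => hce _ (Finset.mem_image_of_mem c (Finset.mem_univ j))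
  obtain ⟨c'', h4⟩ := hden e v he ⟨c', by
    rw [map_smul, hL, hL', ← hc, sm, Finset.mul_sum]
    exact Finset.sum_congr rfl fun j _ => by rw [← hc', map_mul, Algebra.smul_def]; ring⟩
  have h5 : ∑ j, T.inc (c'' j) * τ j = T.inc d * ∑ i, T.inc (v i) * φ i := Subtype.ext (by
    rw [map_smul, hL, hL', sm] at h4
    simpa only [MulMemClass.coe_mul, AddSubmonoidClass.coe_finsetSum, T.inc_eq] using h4)
  refine ⟨fun j => b (c'' j) / b d, fun p => ?_⟩
  have h6 : ∀ a, p.1 (T.inc a) = b a := fun a => DFunLike.congr_fun p.2 a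
  have h7 := congrArg p.1 h5
  simp only [map_sum, map_mul, h6, ← v3] at h7
  simp only [div_mul_eq_mul_div, ← Finset.sum_div, h7, mul_div_cancel_left₀ _ h2]

/-- SATURATION for a weight -/
theorem Fam.satW (T : Fam B ν M) {m : ℕ} (hm : 0 < m) {r : Type} [Fintype r] {τ : r → T.X.O}
    (hτ : ∀ φ, Plu T.dx m φ → φ ∈ Submodule.span K (Set.range fun i => (τ i : M)))
    {w : Pt T.X.O → ENNReal} (hw : T.GoodW m w) :
    ∀ᵐ b ∂B.D.μ, ∀ (g : MvPolynomial ν ℂ) (u : T.Fib b → ℂ), g ≠ 0 →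
      (∀ p, MvPolynomial.eval ((T.fib b).π p) g ≠ 0 →
        DifferentiableAt ℂ (fun z => u ((T.fib b).sec p z)) ((T.fib b).π p)) →
      ∫⁻ p, ENNReal.ofReal (‖u p‖ ^ 2) * w p.1 ∂(T.fib b).μ < ⊤ →
      ∃ a : r → ℂ, ∀ p, MvPolynomial.eval ((T.fib b).π p) g ≠ 0 → u p = ∑ i, a i * p.1 (τ i) := by
  obtain ⟨s, hs, e⟩ := FibRed.countable_span T.X.O
  obtain ⟨κ, _, σ, hσ⟩ := hw.own
  filter_upwards [B.D.ae_of_gen T.gen_Δ, hσ.lt_top, (ae_ball_iff (W.countable_finset_subset hs)).2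
    fun F _ => T.sat_finW hm hτ hw fun i : F => i.1] with b h1 h0 h2 g u hg hu hi
  obtain ⟨φ, hφ⟩ := T.sat_alg hm σ h1 hg hu (by simpa only [Pt.ev_coe] using h0 u hi)
  obtain ⟨F, hF, h3⟩ := Submodule.mem_span_finite_of_mem_span
    (e ▸ Submodule.mem_top : φ ∈ Submodule.span ℂ s)
  obtain ⟨a, -, rfl⟩ := Submodule.mem_span_finset.1 h3
  have h4 : ∀ p : T.Fib b, p.1 (∑ i ∈ F, a i • i) = ∑ i : F, a i * p.1 i := fun p => by
    simp only [map_sum, map_smul, smul_eq_mul]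
    exact (Finset.sum_coe_sort F fun i => a i * p.1 i).symm
  obtain ⟨c, hc⟩ := h2 F hF (fun i => a i) (lt_of_eq_of_lt (lintegral_congr_ae
    (((T.fib b).null_poly hg).mono fun p hp => by simp only [← h4, ← hφ p hp])) hi)
  exact ⟨c, fun p hp => by rw [hφ p hp, h4, hc]⟩

end Pool.Agent.Lib.MP_5c318e_ag
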